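import Pool.Agent.H.MP_1d7ced_al.Prime
import Pool.Agent.H.MP_1d7ced_al.Count

set_option autoImplicit false

namespace Pool.Agent.Results.MP_1d7ced_al.FreeBasis

open Pool.Agent.H.MP_1d7ced_al

section defs
variable {Q A : Type} (δ : Q → A → Q) (lam : Q → Equiv.Perm A)

def run : Q → List A → List A
  | _, [] => []
  | q, a :: w => lam q a :: run (δ q a) w

def runInv : Q → List A → List A
  | _, [] => []
  | q, b :: w => (lam q).symm b :: runInv (δ q ((lam q).symm b)) w

def act (q : Q) : Equiv.Perm (List A) where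
  toFun := run δ lam q
  invFun := runInv δ lam q
  left_inv w := by induction w generalizing q <;> simp_all [run, runInv]
  right_inv w := by induction w generalizing q <;> simp_all [run, runInv]

def IsSink (q : Q) : Prop := ∀ a, δ q a = q ∧ lam q a = a

end defs

section
variable {Q A : Type} (δ : Q → A → Q) (lam : Q → Equiv.Perm A)

abbrev St := {q : Q // ¬ IsSink δ lam q}

open Classical in
noncomputable def emb (q : Q) : FreeGroup (St δ lam) :=
  if h : IsSink δ lam q then 1 else FreeGroup.of ⟨q, h⟩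

noncomputable def τ : FreeGroup (St δ lam) →* Equiv.Perm (List A) :=
  FreeGroup.lift (fun q => act δ lam q.1)

lemma act_sink {q : Q} (h : IsSink δ lam q) : act δ lam q = 1 := by
  ext1 w
  show run δ lam q w = w
  induction w with
  | nil => rfl
  | cons a w ih => rw [run, (h a).1, (h a).2, ih]

lemma τ_emb (q : Q) : τ δ lam (emb δ lam q) = act δ lam q := by
  unfold emb
  split_ifs with h
  · rw [map_one, act_sink δ lam h]
  · simp [τ]

noncomputable def gen (q : Q) : Equiv.Perm (A × FreeGroup (St δ lam)) where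
  toFun y := (lam q y.1, emb δ lam (δ q y.1) * y.2)
  invFun y := ((lam q).symm y.1, (emb δ lam (δ q ((lam q).symm y.1)))⁻¹ * y.2)
  left_inv y := by simp
  right_inv y := by simp

noncomputable def ρ : FreeGroup (St δ lam) →* Equiv.Perm (A × FreeGroup (St δ lam)) :=
  FreeGroup.lift (fun q => gen δ lam q.1)

noncomputable def π : FreeGroup (St δ lam) →* Equiv.Perm A :=
  FreeGroup.lift (fun q => lam q.1)

lemma ρ_of (q : St δ lam) (y : A × FreeGroup (St δ lam)) :
    ρ δ lam (FreeGroup.of q) y = (lam q.1 y.1, emb δ lam (δ q.1 y.1) * y.2) := by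
  simp [ρ, gen]

lemma ρ_inv (q : St δ lam) (y : A × FreeGroup (St δ lam)) :
    ρ δ lam (FreeGroup.of q)⁻¹ y =
      ((lam q.1).symm y.1, (emb δ lam (δ q.1 ((lam q.1).symm y.1)))⁻¹ * y.2) := by
  rw [map_inv, Equiv.Perm.inv_eq_iff_eq, ρ_of]; simp

lemma semi {X Y : Type} {β : Type} (f : FreeGroup β →* Equiv.Perm X)
    (f' : FreeGroup β →* Equiv.Perm Y) (Φ : X → Y)
    (h : ∀ q x, f' (FreeGroup.of q) (Φ x) = Φ (f (FreeGroup.of q) x)) (g : FreeGroup β) :
    ∀ x, f' g (Φ x) = Φ (f g x) := by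
  induction g using FreeGroup.induction_on with
  | C1 => simp
  | of q => exact h q
  | inv_of q _ =>
    intro x
    rw [map_inv, map_inv, Equiv.Perm.inv_eq_iff_eq, h]; simp
  | mul a b ha hb => intro x; simp [ha, hb]

lemma ρ_right (g h k : FreeGroup (St δ lam)) (x : A) :
    ρ δ lam g (x, h * k) = ((ρ δ lam g (x, h)).1, (ρ δ lam g (x, h)).2 * k) :=
  semi (ρ δ lam) (ρ δ lam) (fun y => (y.1, y.2 * k))
    (fun q y => by simp [ρ_of, mul_assoc]) g (x, h)

lemma ρ_fst (g : FreeGroup (St δ lam)) (y : A × FreeGroup (St δ lam)) :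
    π δ lam g y.1 = (ρ δ lam g y).1 :=
  semi (ρ δ lam) (π δ lam) Prod.fst (fun q y => by simp [ρ_of, π]) g y

lemma τ_cons (g : FreeGroup (St δ lam)) (y : A × FreeGroup (St δ lam)) (w : List A) :
    τ δ lam g (y.1 :: τ δ lam y.2 w) = (ρ δ lam g y).1 :: τ δ lam (ρ δ lam g y).2 w :=
  semi (ρ δ lam) (τ δ lam) (fun y => y.1 :: τ δ lam y.2 w)
    (fun q y => by
      rw [ρ_of, map_mul, τ_emb]
      simp only [τ, FreeGroup.lift_apply_of]
      rfl) g y

lemma τ_nil (g : FreeGroup (St δ lam)) : τ δ lam g [] = [] :=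
  semi (1 : FreeGroup (St δ lam) →* Equiv.Perm Unit) (τ δ lam) (fun _ => [])
    (fun q y => by simp only [τ, FreeGroup.lift_apply_of]; rfl) g ()

lemma free_act [Fintype A] [Nontrivial (St δ lam)] (hinj : Function.Injective (τ δ lam))
    (htr : ∀ a b : A, ∃ g, π δ lam g a = b) (g : FreeGroup (St δ lam))
    (y : A × FreeGroup (St δ lam)) (hy : ρ δ lam g y = y) : g = 1 := by
  classical
  by_contra hg
  let K : A → Subgroup (FreeGroup (St δ lam)) := fun x =>
    { carrier := {g | ∀ h, ρ δ lam g (x, h) = (x, h)}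
      mul_mem' := fun {a b} ha hb h => by rw [map_mul, Equiv.Perm.mul_apply, hb, ha]
      one_mem' := fun h => by simp
      inv_mem' := fun {a} ha h => by rw [map_inv, Equiv.Perm.inv_eq_iff_eq, ha] }
  have hK : ∀ x g, g ∈ K x ↔ ∀ h, ρ δ lam g (x, h) = (x, h) := fun _ _ => Iff.rfl
  have hconj : ∀ x n a, a ∈ K x → n * a * n⁻¹ ∈ K (π δ lam n x) := by
    intro x n a ha h
    have e : (ρ δ lam n⁻¹ (π δ lam n x, h)).1 = x := by
      rw [← ρ_fst]; simp
    have e' : ρ δ lam n⁻¹ (π δ lam n x, h) = (x, (ρ δ lam n⁻¹ (π δ lam n x, h)).2) :=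
      Prod.ext e rfl
    rw [map_mul, map_mul, Equiv.Perm.mul_apply, Equiv.Perm.mul_apply, e', ha, ← e']
    simp
  have hgK : g ∈ K y.1 := fun h => by
    have := ρ_right δ lam g y.2 (y.2⁻¹ * h) y.1
    rw [show (y.1, y.2) = y from rfl, hy] at this
    simpa using this
  have hm : Fintype.card (Equiv.Perm A) ≠ 0 := Fintype.card_ne_zero
  have hN : ∀ g, g ^ Fintype.card (Equiv.Perm A) ∈ (π δ lam).ker := fun g => by
    rw [MonoidHom.mem_ker, map_pow, pow_card_eq_one]
  have hgood : ∀ x, Good (π δ lam).ker (K x ⊓ (π δ lam).ker) := by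
    intro x
    refine ⟨?_, inf_le_right, fun n hn a ha => ⟨?_, ?_⟩⟩
    · obtain ⟨n, rfl⟩ := htr y.1 x
      rw [Subgroup.ne_bot_iff_exists_ne_one]
      refine ⟨⟨(n * g * n⁻¹) ^ Fintype.card (Equiv.Perm A),
        Subgroup.pow_mem _ (hconj _ n g hgK) _, hN _⟩, fun h => hg ?_⟩
      have h1 : (n * g * n⁻¹) ^ Fintype.card (Equiv.Perm A) = 1 := congrArg Subtype.val h
      rw [pow_eq_one_iff_left hm] at h1
      simpa using h1
    · have := hconj x n a ha.1
      rw [MonoidHom.mem_ker.1 hn] at this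
      exact this
    · exact Subgroup.mul_mem _ (Subgroup.mul_mem _ hn ha.2) (Subgroup.inv_mem _ hn)
  obtain ⟨M, hM, hle⟩ := Good.iInf hm hN _ hgood Finset.univ
  obtain ⟨⟨a, ha⟩, ha1⟩ := (Subgroup.ne_bot_iff_exists_ne_one).1 hM.1
  apply ha1
  ext1
  apply hinj
  show τ δ lam a = τ δ lam 1
  rw [map_one]
  ext1 w
  cases w with
  | nil => exact τ_nil δ lam a
  | cons x w =>
    have := τ_cons δ lam a (x, 1) w
    rw [(hle x (Finset.mem_univ x) ha).1 1] at this
    simpa using this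

end

theorem result {Q A : Type} [Fintype Q] [Fintype A] (δ : Q → A → Q) (lam : Q → Equiv.Perm A)
    (hfree : Function.Injective
      (FreeGroup.lift (fun q : {q : Q // ¬ IsSink δ lam q} => act δ lam q.1)))
    (hnab : ∃ g ∈ Subgroup.closure (Set.range (act δ lam)),
      ∃ h ∈ Subgroup.closure (Set.range (act δ lam)), g * h ≠ h * g)
    (htrans : ∀ a b : A, ∃ g ∈ Subgroup.closure (Set.range (act δ lam)), g [a] = [b]) :
    (∀ a : A, Function.Bijective (fun q => δ q a)) ∧
    (∀ b : A, Function.Bijective (fun q => δ q ((lam q).symm b))) := by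
  classical
  have hrange : ∀ g ∈ Subgroup.closure (Set.range (act δ lam)), ∃ f, τ δ lam f = g := by
    intro g hg
    have : Subgroup.closure (Set.range (act δ lam)) ≤ (τ δ lam).range := by
      rw [Subgroup.closure_le]
      rintro _ ⟨q, rfl⟩
      exact ⟨_, τ_emb δ lam q⟩
    exact this hg
  have : Nontrivial (St δ lam) := by
    by_contra hs
    rw [not_nontrivial_iff_subsingleton] at hs
    obtain ⟨g, hg, h, hh, hne⟩ := hnab
    obtain ⟨g, rfl⟩ := hrange g hg
    obtain ⟨h, rfl⟩ := hrange h hh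
    have : IsCyclic (FreeGroup (St δ lam)) := by
      rcases isEmpty_or_nonempty (St δ lam) with h | h
      · infer_instance
      · let _ : Unique (St δ lam) := uniqueOfSubsingleton h.some
        infer_instance
    obtain ⟨t, ht⟩ := IsCyclic.exists_generator (α := FreeGroup (St δ lam))
    obtain ⟨i, rfl⟩ := ht g
    obtain ⟨j, rfl⟩ := ht h
    exact hne ((Commute.zpow_zpow_self t i j).map (τ δ lam))
  have htr : ∀ a b : A, ∃ g, π δ lam g a = b := fun a b => by
    obtain ⟨g, hg, h⟩ := htrans a b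
    obtain ⟨g, rfl⟩ := hrange g hg
    refine ⟨g, ?_⟩
    have := τ_cons δ lam g (a, 1) []
    rw [τ_nil, h, ← ρ_fst] at this
    exact (List.cons.inj this).1.symm
  have hemb : ∀ q, emb δ lam q = 1 ∨ ∃ p : St δ lam, p.1 = q ∧ emb δ lam q = FreeGroup.of p := by
    intro q
    unfold emb
    split_ifs with h
    · exact Or.inl rfl
    · exact Or.inr ⟨⟨q, h⟩, rfl, rfl⟩
  have e1 : ∀ p : St δ lam, el (p, true) = FreeGroup.of p := fun _ => rfl
  have e2 : ∀ p : St δ lam, el (p, false) = (FreeGroup.of p)⁻¹ := fun p => el_iv (p, true)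
  have hs := surj_sec (ρ δ lam) (free_act δ lam hfree htr) (by
    rintro ⟨p, _ | _⟩ x
    · refine ⟨(lam p.1).symm x, (emb δ lam (δ p.1 ((lam p.1).symm x)))⁻¹, ?_,
        fun h => by rw [e2, ρ_inv]⟩
      rcases hemb (δ p.1 ((lam p.1).symm x)) with h | ⟨r, -, h⟩
      · left; simp [h]
      · right; exact ⟨(r, false), by rw [h, e2]⟩
    · refine ⟨lam p.1 x, emb δ lam (δ p.1 x), ?_, fun h => by rw [e1, ρ_of]⟩
      rcases hemb (δ p.1 x) with h | ⟨r, -, h⟩
      · left; exact h
      · right; exact ⟨(r, true), by rw [h, e1]⟩)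
  have hne : ∀ (q : Q) (r : St δ lam), (emb δ lam q)⁻¹ ≠ FreeGroup.of r := by
    intro q r h
    have := congrArg FreeGroup.toWord h
    rcases hemb q with h1 | ⟨p, -, h1⟩ <;> rw [h1] at this <;> simp [FreeGroup.invRev] at this
  have heq : ∀ (q : Q) (r : St δ lam), emb δ lam q = FreeGroup.of r → q = r.1 := by
    intro q r h
    rcases hemb q with h1 | ⟨p, rfl, h1⟩ <;> rw [h1] at h
    · exact absurd h (FreeGroup.one_ne_of r)
    · rw [FreeGroup.of_injective h]
  constructor
  · intro a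
    rw [← Finite.surjective_iff_bijective]
    intro q
    by_cases hq : IsSink δ lam q
    · exact ⟨q, (hq a).1⟩
    obtain ⟨⟨p, _ | _⟩, h⟩ := hs a (⟨q, hq⟩, true)
    · rw [e2, ρ_inv, e1, mul_one] at h
      exact absurd h (hne _ _)
    · rw [e1, ρ_of, e1, mul_one] at h
      exact ⟨p.1, heq _ _ h⟩
  · intro b
    rw [← Finite.surjective_iff_bijective]
    intro q
    by_cases hq : IsSink δ lam q
    · exact ⟨q, (hq _).1⟩
    obtain ⟨⟨p, _ | _⟩, h⟩ := hs b (⟨q, hq⟩, false)
    · rw [e2, ρ_inv, e2, mul_one, inv_inj] at h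
      exact ⟨p.1, heq _ _ h⟩
    · rw [e1, ρ_of, e2, mul_one, ← inv_eq_iff_eq_inv] at h
      exact absurd h (hne _ _)

end Pool.Agent.Results.MP_1d7ced_al.FreeBasis
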